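import Pool.Agent.Helper73.BI5.M_D2

/-!
# Project BI, stage 5: MODULE JO, the map which retracts the first finger
-/

set_option autoImplicit false
set_option linter.unusedSectionVars false

open scoped Manifold ContDiff Topology ComplexConjugate
open Set Filter Pool.Agent.Helper65.Barb Pool.Agent.Helper18.BI
open Pool.Agent.Helper70.BI (I4 LD NearEq IsW embOn_comp ld_comp ld_iff)
open Pool.Agent.Helper34.BI (rade qe)
open Pool.Agent.Helper27.BI (e1 imp_image imp_off)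
open Pool.Agent.Helper27.H

namespace Pool.Agent.Helper27.S5

namespace JO

section sh
variable {c : ℝ} {S S' : R4 → R4} (hS : SHat c S S')
include hS

theorem S'_inj {p q : R4} (h : S' p = S' q) : p = q := by
  rw [← hS.right p, h, hS.right]

theorem S'_fix {p : R4} (h : S p = p) : S' p = p := by
  conv_lhs => rw [← h]
  exact hS.left p

/-- far from the line everything is fixed -/
theorem S_far {p : R4} (h : 49 / 100 ≤ rsq 1 p) : S p = p := by
  refine hS.thin p.1 p.2 fun τ hτ => ?_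
  have b0 := bfin_nonneg p.1
  have b1 := bfin_le p.1
  have e : nsq (p.2 - (1 - τ * bfin p.1) • e1) =
      (p.2.1 - (1 - τ * bfin p.1)) ^ 2 + p.2.2.re ^ 2 + p.2.2.im ^ 2 := by
    rw [Geo.nsq_def, Geo.e1_def]
    simp
  rw [e]
  rw [Geo.rsq1] at h
  have w0 : 0 ≤ τ * bfin p.1 := mul_nonneg hτ.1 b0
  have w1 : τ * bfin p.1 ≤ 27 / 100 := by
    calc τ * bfin p.1 ≤ 1 * bfin p.1 := mul_le_mul_of_nonneg_right hτ.2 b0
      _ ≤ 27 / 100 := by rw [one_mul]; exact b1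
  generalize τ * bfin p.1 = w at w0 w1
  by_contra hcon
  push Not at hcon
  have h1 : (p.2.1 - (1 - w)) ^ 2 ≤ (1 / 50) ^ 2 := by
    nlinarith [sq_nonneg p.2.2.re, sq_nonneg p.2.2.im]
  have h2 := abs_le.1 (abs_le_of_sq_le_sq h1 (by norm_num))
  have h3 : (p.2.1 - 1) ^ 2 ≤ (29 / 100) ^ 2 := by
    apply sq_le_sq'
    · linarith [h2.1]
    · linarith [h2.2]
  have h4 := sq_nonneg (p.2.1 - (1 - w))
  norm_num at h3 hcon
  linarith

/-- `S'` preserves the region -/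
theorem S'_reg {p : R4} (h0 : 0 ≤ p.1) (h1 : p.1 ≤ 1) (h2 : rsq 1 p ≤ 49 / 100) :
    0 ≤ (S' p).1 ∧ (S' p).1 ≤ 1 ∧ rsq 1 (S' p) ≤ 49 / 100 := by
  by_contra hcon
  have h3 : S (S' p) = S' p := by
    rcases le_or_gt (49 / 100) (rsq 1 (S' p)) with h4 | h4
    · exact S_far hS h4
    · refine hS.out (S' p).1 (S' p).2 ?_
      by_contra h5
      push Not at h5
      exact hcon ⟨by linarith [h5.1], by linarith [h5.2], h4.le⟩
  rw [hS.right] at h3
  rw [← h3] at hcon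
  exact hcon ⟨h0, h1, h2⟩

variable {δ δ' κ β : ℝ} (hp : Par δ δ' κ β)
include hp

/-- the points whose value is near the second hole are fixed -/
theorem h_near {p : R4} (h0 : 0 < rsq 1 (S' p))
    (h : nsq ((rade δ' 1 (S' p)).2 - P2 β) ≤ κ ^ 2) : rade δ' 1 (S' p) = p := by
  have h2 := Geo.rsq_lo hp h
  have h4 := Geo.rade_out (Geo.hδ' hp) h0 h2.le
  rw [h4] at h ⊢
  have h5 := D2.S_near hS hp h
  rw [hS.right] at h5
  exact h5.symm

theorem h_Reg {p : R4} (hR : p ∈ Reg δ') (h0 : 0 < rsq 1 (S' p)) :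
    rade δ' 1 (S' p) ∈ Reg δ' := by
  have hd := Geo.hδ' hp
  obtain ⟨a0, a1, a2⟩ := S'_reg hS hR.1 hR.2.1 hR.2.2.2
  refine ⟨a0, a1, Geo.rade_low' hd h0, ?_⟩
  rcases le_or_gt (1 / 25 - δ') (rsq 1 (S' p)) with h3 | h3
  · rw [Geo.rade_fix hd h3]
    exact a2
  · have := Geo.rade_le hd h0 h3.le
    linarith [hd.1]

end sh

/-! ### the arcs -/

section arcs
variable {G T' : R4 → R4} {δ' : ℝ} {D' : ArcD} (hD : HatOk δ' T' G D')
include hD

theorem mem_A (y : R4) : y ∈ D'.A ↔ ∃ s ∈ Icc D'.s₀ D'.s₁, G (s, z0 s) = y := by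
  constructor
  · rintro ⟨⟨s, y'⟩, ⟨h1, h2, h3⟩, rfl⟩
    have h4 : y' = 0 := h3
    subst h4
    refine ⟨s, ⟨h1, h2⟩, ?_⟩
    rw [hD.J]
    show G (s, z0 s) = G (s, z0 s + 0)
    rw [add_zero]
  · rintro ⟨s, hs, rfl⟩
    refine ⟨(s, 0), ⟨hs.1, hs.2, rfl⟩, ?_⟩
    rw [hD.J]
    show G (s, z0 s + 0) = _
    rw [add_zero]

/-- a point of the line over the finger, outside the wall, is on the first arc -/
theorem line_mem {s : ℝ} (h : 1 / 25 - δ' < rsq 1 (s, z0 s)) : s ∈ Icc D'.s₀ D'.s₁ := by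
  rw [rsq1_z0] at h
  by_contra hcon
  exact absurd (hD.b' s fun h' => hcon ⟨h'.1.le, h'.2.le⟩) (not_le.2 h)

end arcs

theorem mem_A2 {G T : R4 → R4} {δ δ' κ β c a b : ℝ} {H : DFam 𝓘(ℝ, R4) R4} (hH : THat T c H)
    (hp : Par δ δ' κ β) (y : R4) :
    y ∈ A2 G H β a b ↔ ∃ s ∈ Icc a b, G (s, z2 c β s) = y := by
  constructor
  · rintro ⟨⟨s, x⟩, ⟨h1, h2, h3⟩, rfl⟩
    have h4 : x = P2 β := h1
    subst h4
    exact ⟨s, ⟨h2, h3⟩, congrArg G (Geo.H_P2 hH hp s).symm⟩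
  · rintro ⟨s, hs, rfl⟩
    exact ⟨(s, P2 β), ⟨rfl, hs.1, hs.2⟩, congrArg G (Geo.H_P2 hH hp s)⟩

/-- the closed set which is removed -/
def Bs (D' : ArcD) (δ' κ β : ℝ) : Set R4 :=
  wallS δ' ∪ wall2 δ' κ β ∪ (fun s : ℝ => ((s, z0 s) : R4)) '' Icc D'.s₀ D'.s₁

theorem isClosed_Bs (D' : ArcD) (δ' κ β : ℝ) : IsClosed (Bs D' δ' κ β) :=
  ((Geo.isClosed_wallS δ').union (Geo.isClosed_wall2 δ' κ β)).union
    (isCompact_Icc.image (continuous_id.prodMk contDiff_z0.continuous)).isClosed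

/-- a map which is an embedding near a compact set gives a constant isotopy -/
theorem ci_const {F : R4 → R4} {K : Set R4} {Θ Θ' : R4 → R4} (hK : IsCompact K)
    (hF : EmbOn I4 F K) (hΘ : SDiff K Θ Θ') : CIsot I4 (imp F K Θ) (imp F K Θ) := by
  have hfam : FamOn I4 (fun w : ℝ × R4 => F w.2) K := by
    constructor
    · refine ⟨{w | w.2 ∈ interior {q | ContDiffAt ℝ ∞ F q}},
        isOpen_interior.preimage continuous_snd, ?_, ?_⟩
      · rintro z ⟨-, hz⟩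
        exact mem_interior_iff_mem_nhds.2 (ld_iff.1 (hF.1 _ hz)).1
      · intro w hw
        have hw' : ContDiffAt ℝ ∞ F w.2 := interior_subset hw
        have hw2 : ContDiffAt ℝ ∞ (fun w : ℝ × R4 => F w.2) w := hw'.comp w contDiffAt_snd
        exact hw2.contMDiffAt.contMDiffWithinAt
    · intro t _
      exact hF
  exact hA3 R4 R4 I4 R4 (fun w : ℝ × R4 => F w.2) K Θ Θ' hK hfam hΘ

theorem mapsTo_sdiff {K : Set R4} {Θ Θ' : R4 → R4} (hΘ : SDiff K Θ Θ') : MapsTo Θ K K := by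
  intro x hx
  by_contra h
  have h1 := hΘ.2.2.2.2 _ h
  have h2 : Θ x = x := by
    have := congrArg Θ' h1
    rwa [hΘ.2.2.2.1, hΘ.2.2.2.1] at this
  exact h (by rw [h2]; exact hx)

/-! ### the system -/

section sys
variable {G T T' S S' M M' : R4 → R4} {δ δ' κ β c : ℝ} {D D' D₂ : ArcD}
  {H : DFam 𝓘(ℝ, R4) R4} {a b : ℝ} (hs : Sys G T T' δ δ' κ β c D D' H a b) (hS : SHat c S S')
  (hM : MOk δ' H S' M M') (hD₂ : D2Ok G M M' δ' κ β a b D₂)
include hs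

theorem embR : EmbOn I4 G (Reg δ') := Pool.Agent.Helper27.BI.EmbOn.mono hs.emb Geo.Reg_K3

theorem injR : InjOn G (Reg δ') := (embR hs).2

theorem injRh : InjOn G (Reg δ' \ hol δ' κ β) := (embR hs).2.mono sdiff_subset

/-- the points of the region off the walls -/
theorem far {p : R4} (hR : p ∈ Reg δ' \ hol δ' κ β) (hB : p ∉ wallS δ' ∪ wall2 δ' κ β) :
    1 / 25 - δ' < rsq 1 p ∧ 1 / 25 - δ' < rsq 1 (sgi κ β p) := by
  obtain ⟨hpR, hph⟩ := hR
  constructor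
  · by_contra h
    push Not at h
    exact hB (Or.inl ⟨hpR.1, hpR.2.1, hpR.2.2.1, h⟩)
  · by_contra h
    push Not at h
    apply hB
    right
    refine ⟨hpR.1, hpR.2.1, ?_, h⟩
    by_contra h2
    exact hph ⟨hpR.1, hpR.2.1, not_le.1 h2⟩

include hS in
theorem key {p : R4} (hpp : p ∈ (Reg δ' \ hol δ' κ β) \ Bs D' δ' κ β) :
    1 / 25 - δ' < rsq 1 p ∧ 1 / 25 - δ' < rsq 1 (sgi κ β p) ∧ 0 < rsq 1 (S' p) := by
  obtain ⟨h1, h2⟩ := far hs hpp.1 fun h => hpp.2 (Or.inl h)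
  refine ⟨h1, h2, ?_⟩
  rw [Geo.rsq1_pos_iff]
  intro h3
  have h4 : S' p = ((S' p).1, e1) := Prod.ext rfl h3
  have h5 : p = ((S' p).1, z0 (S' p).1) := by
    rw [← D2.S_e1 hS (S' p).1, ← h4, hS.right]
  apply hpp.2
  right
  refine ⟨(S' p).1, ?_, h5.symm⟩
  apply line_mem hs.hat'
  rw [← h5]
  exact h1

/-- the points of the domain which come from the region -/
theorem notB {p : R4} (hR : p ∈ Reg δ' \ hol δ' κ β) (hx : G p ∈ U2 G δ' κ β \ D'.A) :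
    p ∉ Bs D' δ' κ β := by
  rintro (h | ⟨s, h1, h2⟩)
  · exact hx.1 ⟨p, h, rfl⟩
  · exact hx.2 ((mem_A hs.hat' _).2 ⟨s, h1, by rw [← h2]⟩)

include hS

theorem h_R {p : R4} (hpp : p ∈ (Reg δ' \ hol δ' κ β) \ Bs D' δ' κ β) :
    rade δ' 1 (S' p) ∈ Reg δ' \ hol δ' κ β := by
  have hp := hs.par
  have h0 := (key hs hS hpp).2.2
  refine ⟨h_Reg hS hp hpp.1.1 h0, fun h => ?_⟩
  rw [h_near hS hp h0 (Geo.hol_near hp h)] at h
  exact hpp.1.2 h

theorem jo_emb (hGH : StGH) : EmbOn I4 (jo G S' δ' κ β) (U2 G δ' κ β \ D'.A) := by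
  have hp := hs.par
  have hd := Geo.hδ' hp
  have hemb : EmbOn I4 (imp G (Reg δ' \ hol δ' κ β) (fun p => rade δ' 1 (S' p)))
      (G '' ((Reg δ' \ hol δ' κ β) ∩ Bs D' δ' κ β))ᶜ := by
    apply hGH G _ _ _ (Geo.isCompact_Reg_hol δ' κ β) (isClosed_Bs D' δ' κ β)
    · exact Pool.Agent.Helper27.BI.EmbOn.mono (embR hs) sdiff_subset
    · intro p hpp
      have l1 : LD S' p := Geo.ld_of_inv hS.smooth' hS.smooth hS.right hS.left p
      have l2 : LD (rade δ' 1) (S' p) := (rade_emb hd).1 _ (key hs hS hpp).2.2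
      have l3 : LD (rade δ' 1 ∘ S') p := ld_comp l1 l2
      exact l3
    · intro p hpp q hqq h
      exact S'_inj hS ((rade_emb hd).2 (key hs hS hpp).2.2 (key hs hS hqq).2.2 h)
    · exact fun p hpp => h_R hs hS hpp
    · intro p hpp
      have e1 : ∀ᶠ q in 𝓝 p, 1 / 25 - δ' < rsq 1 (sgi κ β q) :=
        (Geo.continuous_rsq_sgi κ β).continuousAt.eventually (lt_mem_nhds (key hs hS hpp).2.1)
      have e2 : ∀ᶠ q in 𝓝 p, 1 / 25 - δ' < rsq 1 q :=
        Geo.continuous_rsq1.continuousAt.eventually (lt_mem_nhds (key hs hS hpp).1)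
      filter_upwards [e1, e2] with q hq1 hq2 hq3
      have hq4 : q ∉ Reg δ' := fun h =>
        hq3 ⟨h, fun h' => absurd h'.2.2 (not_lt.2 (by linarith [hd.1]))⟩
      have hq5 : S q = q := by
        by_cases h1 : 49 / 100 ≤ rsq 1 q
        · exact S_far hS h1
        · refine hS.out q.1 q.2 ?_
          by_contra h2
          push Not at h2 h1
          exact hq4 ⟨by linarith [h2.1], by linarith [h2.2], by linarith [hd.1], h1.le⟩
      show rade δ' 1 (S' q) = q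
      rw [S'_fix hS hq5]
      exact Geo.rade_fix hd hq2.le
  apply Pool.Agent.Helper27.BI.EmbOn.mono hemb
  rintro y hy ⟨p, ⟨hp1, hp2⟩, rfl⟩
  exact notB hs hp1 hy hp2

theorem jo_val {p : R4} (hR : p ∈ Reg δ' \ hol δ' κ β) :
    jo G S' δ' κ β (G p) = G (rade δ' 1 (S' p)) := imp_image (injRh hs) hR

include hD₂ in
theorem jo_maps : MapsTo (jo G S' δ' κ β) (U2 G δ' κ β \ D'.A) D₂.U := by
  have hp := hs.par
  intro y hy
  rw [hD₂.U]
  by_cases hyR : y ∈ G '' (Reg δ' \ hol δ' κ β)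
  · obtain ⟨p, hpR, rfl⟩ := hyR
    have hpB := notB hs hpR hy
    rw [jo_val hs hS hpR]
    rintro ⟨q, hq, hqe⟩
    have h1 := h_R hs hS ⟨hpR, hpB⟩
    have h2 : q = rade δ' 1 (S' p) := injR hs (Geo.wall2_Reg hp hq) h1.1 hqe
    rw [h2] at hq
    rw [h_near hS hp (key hs hS ⟨hpR, hpB⟩).2.2 (Geo.wall2_near hp hq)] at hq
    exact hpB (Or.inl (Or.inr hq))
  · have h1 : jo G S' δ' κ β y = y := imp_off hyR
    rw [h1]
    rintro ⟨q, hq, hqe⟩
    exact hy.1 ⟨q, Or.inr hq, hqe⟩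

omit hS in
/-- the points of the second arc are inside the region -/
theorem arc_in {s : ℝ} (h : s ∈ Ioo a b) : 1 / 10 < s ∧ s < 9 / 10 ∧
    1 / 25 - δ' < rsq 1 (s, z2 c β s) ∧ rsq 1 (s, z2 c β s) < 49 / 100 ∧
      1 / 25 - δ' < rsq 1 (sgi κ β (s, z2 c β s)) := by
  have hp := hs.par
  have hc := hs.mc
  have k0 := hp.k0
  have n1 := Geo.num_lo hp
  have n2 := Geo.num_hi hp
  have hab := hs.ab
  have h2 : nsq (((s, P2 β) : R4).2 - P2 β) ≤ κ ^ 2 := by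
    show nsq (P2 β - P2 β) ≤ κ ^ 2
    rw [sub_self]
    simp [Geo.nsq_def]
    positivity
  have h3 := (Geo.H_near_rsq hs.th hp hc h2).1
  rw [Geo.H_P2 hs.th hp] at h3
  refine ⟨by linarith [h.1, hab.ma.1], by linarith [h.2, hab.mb.2], h3, ?_, ?_⟩
  · rw [Geo.rsq_z2]
    have b0 := bfin_nonneg s
    have b1 := bfin_le s
    have l0 := Geo.lam_pos hc s
    have l1 := Geo.lam_le hc s
    have q1 : bfin s ^ 2 ≤ (27 / 100) ^ 2 := pow_le_pow_left₀ b0 b1 2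
    have q2 : lam c s * β ≤ 1 / 5 := by
      calc lam c s * β ≤ 1 * β := mul_le_mul_of_nonneg_right l1 (by linarith)
        _ ≤ 1 / 5 := by linarith
    have q3 : (lam c s * β) ^ 2 ≤ (1 / 5) ^ 2 :=
      pow_le_pow_left₀ (mul_nonneg l0.le (by linarith)) q2 2
    norm_num at q1 q3
    linarith
  · rw [Geo.rsq_sgi k0]
    show _ < nsq (z2 c β s - P2 β) / κ ^ 2
    rw [Geo.nsq_z2, lt_div_iff₀ (by positivity)]
    have h4 := hab.ins s h
    have h5 : 0 ≤ (1 - lam c s) ^ 2 * β ^ 2 := by positivity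
    linarith

omit hS in
theorem arc_R {s : ℝ} (h : s ∈ Ioo a b) : (s, z2 c β s) ∈ Reg δ' \ hol δ' κ β := by
  have hd := Geo.hδ' hs.par
  obtain ⟨h1, h2, h3, h4, h5⟩ := arc_in hs h
  refine ⟨⟨?_, ?_, ?_, h4.le⟩, fun h6 => absurd h6.2.2 (not_lt.2 (by linarith [hd.1]))⟩
  · show (0 : ℝ) ≤ s
    linarith
  · show s ≤ (1 : ℝ)
    linarith
  · linarith [hd.1]

omit hS in
/-- the points of the second arc are in the domain of `jo` -/
theorem arc_dom {s : ℝ} (h : s ∈ Ioo a b) : G (s, z2 c β s) ∈ U2 G δ' κ β \ D'.A := by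
  have hp := hs.par
  obtain ⟨h1, h2, h3, h4, h5⟩ := arc_in hs h
  have hR := arc_R hs h
  constructor
  · rintro ⟨q, hq, hqe⟩
    have hq' : q ∈ Reg δ' := hq.elim (fun h => Geo.wall_Reg hp h) (fun h => Geo.wall2_Reg hp h)
    have h6 : q = (s, z2 c β s) := injR hs hq' hR.1 hqe
    rw [h6] at hq
    rcases hq with hq | hq
    · exact absurd hq.2.2.2 (not_le.2 h3)
    · have h7 : rsq 1 (sgi κ β (s, z2 c β s)) ≤ 1 / 25 - δ' := hq.2.2.2
      exact absurd h7 (not_le.2 h5)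
  · intro h6
    obtain ⟨t, ht, hte⟩ := (mem_A hs.hat' _).1 h6
    have ht1 : D'.s₀ ∈ Ioo (1 / 10 : ℝ) (3 / 10) := hs.hat'.s₀
    have ht2 : D'.s₁ ∈ Ioo (7 / 10 : ℝ) (9 / 10) := hs.hat'.s₁
    have hd := Geo.hδ' hp
    have h7 : ((t, z0 t) : R4) ∈ Reg δ' := by
      have b0 := bfin_nonneg t
      have b1 := bfin_le t
      have h8 : 1 / 25 - δ' ≤ bfin t ^ 2 := by
        rcases ht.1.eq_or_lt with h9 | h9
        · rw [← h9, hs.hat'.b₀]
        · rcases ht.2.eq_or_lt with h10 | h10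
          · rw [h10, hs.hat'.b₁]
          · exact (hs.hat'.b t ⟨h9, h10⟩).le
      refine ⟨?_, ?_, ?_, ?_⟩
      · show (0 : ℝ) ≤ t
        linarith [ht.1, ht1.1]
      · show t ≤ (1 : ℝ)
        linarith [ht.2, ht2.2]
      · rw [rsq1_z0]
        linarith [hd.1]
      · rw [rsq1_z0]
        nlinarith
    have h8 := injR hs h7 hR.1 hte
    have h9 : t = s := congrArg Prod.fst h8
    have h10 : z0 t = z2 c β s := congrArg Prod.snd h8
    subst h9
    have h11 := Geo.nsq_z20 c β t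
    rw [← h10, sub_self] at h11
    have h12 : (lam c t * β) ^ 2 = 0 := by
      rw [← h11]
      simp [Geo.nsq_def]
    have h13 : 0 < lam c t * β := mul_pos (Geo.lam_pos hs.mc t) (hp.k0.trans hp.k1)
    have h14 : 0 < (lam c t * β) ^ 2 := by positivity
    exact absurd h12 h14.ne'

include hM hD₂ in
theorem jo_arc {s : ℝ} (h : s ∈ Ioo a b) : ∀ᶠ p in 𝓝 ((s, 0) : R4),
    D₂.J p = jo G S' δ' κ β (G (H.f (1, (p.1, P2 β + p.2)))) := by
  have hp := hs.par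
  have hd := Geo.hδ' hp
  obtain ⟨h1, h2, h3, h4, h5⟩ := arc_in hs h
  have cv : Continuous fun p : R4 => ((p.1, P2 β + p.2) : R4) := by fun_prop
  have cH : Continuous fun p : R4 => H.f (1, (p.1, P2 β + p.2)) :=
    H.smooth_f.continuous.comp (continuous_const.prodMk cv)
  have e0 : H.f (1, (((s, 0) : R4).1, P2 β + ((s, 0) : R4).2)) = (s, z2 c β s) := by
    show H.f (1, (s, P2 β + 0)) = _
    rw [add_zero, Geo.H_P2 hs.th hp]
  have e0' : ((((s, 0) : R4).1, P2 β + ((s, 0) : R4).2) : R4) = (s, P2 β) := by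
    show ((s, P2 β + 0) : R4) = _
    rw [add_zero]
  have c1 : ∀ᶠ p : R4 in 𝓝 ((s, 0) : R4), 0 < (H.f (1, (p.1, P2 β + p.2))).1 :=
    (continuous_fst.comp cH).continuousAt.eventually (lt_mem_nhds (by
      show 0 < (H.f (1, (((s, 0) : R4).1, P2 β + ((s, 0) : R4).2))).1
      rw [e0]
      show 0 < s
      linarith))
  have c2 : ∀ᶠ p : R4 in 𝓝 ((s, 0) : R4), (H.f (1, (p.1, P2 β + p.2))).1 < 1 :=
    (continuous_fst.comp cH).continuousAt.eventually (gt_mem_nhds (by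
      show (H.f (1, (((s, 0) : R4).1, P2 β + ((s, 0) : R4).2))).1 < 1
      rw [e0]
      show s < 1
      linarith))
  have c3 : ∀ᶠ p : R4 in 𝓝 ((s, 0) : R4), 1 / 25 - δ' < rsq 1 (H.f (1, (p.1, P2 β + p.2))) :=
    (Geo.continuous_rsq1.comp cH).continuousAt.eventually (lt_mem_nhds (by
      show 1 / 25 - δ' < rsq 1 (H.f (1, (((s, 0) : R4).1, P2 β + ((s, 0) : R4).2)))
      rw [e0]
      exact h3))
  have c4 : ∀ᶠ p : R4 in 𝓝 ((s, 0) : R4), rsq 1 (H.f (1, (p.1, P2 β + p.2))) < 49 / 100 :=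
    (Geo.continuous_rsq1.comp cH).continuousAt.eventually (gt_mem_nhds (by
      show rsq 1 (H.f (1, (((s, 0) : R4).1, P2 β + ((s, 0) : R4).2))) < 49 / 100
      rw [e0]
      exact h4))
  have c5 : ∀ᶠ p : R4 in 𝓝 ((s, 0) : R4),
      1 / 25 - δ' < rsq 1 (sgi κ β (H.f (1, (p.1, P2 β + p.2)))) :=
    ((Geo.continuous_rsq_sgi κ β).comp cH).continuousAt.eventually (lt_mem_nhds (by
      show 1 / 25 - δ' < rsq 1 (sgi κ β (H.f (1, (((s, 0) : R4).1, P2 β + ((s, 0) : R4).2))))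
      rw [e0]
      exact h5))
  have c6 : ∀ᶠ p : R4 in 𝓝 ((s, 0) : R4), 1 / 25 - δ' < rsq 1 (p.1, P2 β + p.2) :=
    (Geo.continuous_rsq1.comp cv).continuousAt.eventually (lt_mem_nhds (by
      show 1 / 25 - δ' < rsq 1 (((s, 0) : R4).1, P2 β + ((s, 0) : R4).2)
      rw [e0']
      exact D2.P2_far hp s))
  filter_upwards [c1, c2, c3, c4, c5, c6] with p k1 k2 k3 k4 k5 k6
  have hR : H.f (1, (p.1, P2 β + p.2)) ∈ Reg δ' \ hol δ' κ β :=
    ⟨⟨k1.le, k2.le, by linarith [hd.1], k4.le⟩,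
      fun h6 => absurd h6.2.2 (not_lt.2 (by linarith [hd.1]))⟩
  rw [jo_val hs hS hR, ← hM.eq _ (by linarith [hd.2]), Geo.rade_fix hd k6.le, hD₂.J]

include hM in
/-- the two embeddings agree -/
theorem EE_eq {x : R4} (hx : x ∈ U2 G δ' κ β \ (D'.A ∪ A2 G H β a b)) :
    EE G H δ' κ β x =
      imp G (Reg δ' \ hol δ' κ β) (fun p => rad2 δ' κ β (M' p)) (jo G S' δ' κ β x) := by
  have hp := hs.par
  have hd := Geo.hδ' hp
  have hx1 : x ∈ U2 G δ' κ β \ D'.A := ⟨hx.1, fun h => hx.2 (Or.inl h)⟩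
  by_cases hxR : x ∈ G '' (Reg δ' \ hol δ' κ β)
  · obtain ⟨p, hpR, rfl⟩ := hxR
    have hpB := notB hs hpR hx1
    have hk := key hs hS ⟨hpR, hpB⟩
    rw [jo_val hs hS hpR, imp_image (injRh hs) (h_R hs hS ⟨hpR, hpB⟩)]
    have h1 : EE G H δ' κ β (G p) = G (rade δ' 1 (rad2 δ' κ β (H.g (1, p)))) :=
      imp_image (injRh hs) hpR
    rw [h1]
    have hq : p = H.f (1, H.g (1, p)) := (H.fg 1 p).symm
    have q0 : 0 < rsq 1 (H.g (1, p)) := by
      rw [Geo.rsq1_pos_iff]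
      intro h3
      have h4 : H.g (1, p) = ((H.g (1, p)).1, e1) := Prod.ext rfl h3
      have h5 := Geo.H_e1 hs.th h4
      apply hpB
      right
      refine ⟨_, ?_, h5.symm⟩
      apply line_mem hs.hat'
      rw [← h5]
      exact hk.1
    have q1 : 0 < rsq 1 (sgi κ β (H.g (1, p))) := by
      rw [Geo.sgi_pos_iff hp.k0]
      intro h3
      have h4 : H.g (1, p) = ((H.g (1, p)).1, P2 β) := Prod.ext rfl h3
      rw [h4, Geo.H_P2 hs.th hp] at hq
      by_cases h5 : (H.g (1, p)).1 ∈ Icc a b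
      · exact hx.2 (Or.inr ((mem_A2 hs.th hp _).2 ⟨_, h5, by rw [← hq]⟩))
      · have h6 := Geo.H_P2_out hs.th hp hs.mc hd hs.ab h5
        rw [← hq] at h6
        exact absurd hk.2.1 (not_lt.2 h6)
    have h2 : rade δ' 1 (S' p) = M (rade δ' 1 (H.g (1, p))) := by
      rw [hM.eq _ q0, ← hq]
    rw [h2, hM.left, Geo.rad2_rade hp q0 q1]
  · have h1 : jo G S' δ' κ β x = x := imp_off hxR
    rw [h1, imp_off hxR]
    exact imp_off hxR

end sys

end JO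

/-- **JO.** -/
theorem m_JO (hGH : StGH) : StJO := by
  intro G T T' S S' M M' δ δ' κ β c D D' D₂ H a b hs hS hM hD₂
  have hp := hs.par
  have hemb := JO.jo_emb hs hS hGH
  have hmaps := JO.jo_maps hs hS hD₂
  refine ⟨hemb, hmaps, fun s h => JO.jo_arc hs hS hM hD₂ h, ?_⟩
  intro K Θ Θ' hK hKs hΘ
  have hK1 : K ⊆ U2 G δ' κ β \ D'.A := fun x hx => ⟨(hKs hx).1, fun h => (hKs hx).2 (Or.inl h)⟩
  have hJ : ∀ s, D₂.J (s, 0) = G (M (s, P2 β)) := by
    intro s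
    rw [hD₂.J]
    show G (M (s, P2 β + 0)) = _
    rw [add_zero]
  have hsub : jo G S' δ' κ β '' K ⊆ D₂.U \ D₂.A := by
    rintro _ ⟨x, hx, rfl⟩
    refine ⟨hmaps (hK1 hx), ?_⟩
    rintro ⟨⟨s, y⟩, ⟨h1, h2, h3⟩, h4⟩
    have h5 : y = 0 := h3
    subst h5
    rw [hD₂.s₀] at h1
    rw [hD₂.s₁] at h2
    have hab : D₂.s₀ ≤ D₂.s₁ := (D₂.h₀.trans (D₂.h₁.trans D₂.h₂)).le
    have hU := hmaps (hK1 hx)
    rw [← h4] at hU
    have h1' : a < s := by
      rcases h1.eq_or_lt with h6 | h6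
      · exfalso
        have h7 := D₂.core D₂.s₀ ⟨le_rfl, hab⟩
        rw [hD₂.s₀, h6] at h7
        apply D₂.off₀
        rw [hD₂.s₀, h6, ← h7]
        exact hU
      · exact h6
    have h2' : s < b := by
      rcases h2.eq_or_lt with h6 | h6
      · exfalso
        have h7 := D₂.core D₂.s₁ ⟨hab, le_rfl⟩
        rw [hD₂.s₁, ← h6] at h7
        apply D₂.off₁
        rw [hD₂.s₁, ← h6, ← h7]
        exact hU
      · exact h6
    have h6 := (JO.jo_arc hs hS hM hD₂ ⟨h1', h2'⟩).self_of_nhds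
    have h7 : D₂.J (s, 0) = jo G S' δ' κ β (G (s, z2 c β s)) := by
      rw [h6]
      show jo G S' δ' κ β (G (H.f (1, (s, P2 β + 0)))) = _
      rw [add_zero, Geo.H_P2 hs.th hp]
    rw [h7] at h4
    have h8 := hemb.2 (JO.arc_dom hs ⟨h1', h2'⟩) (hK1 hx) h4
    exact (hKs hx).2 (Or.inr ((JO.mem_A2 hs.th hp _).2 ⟨s, ⟨h1'.le, h2'.le⟩, h8⟩))
  refine ⟨hsub, ?_⟩
  have hjK : EmbOn I4 (jo G S' δ' κ β) K := Pool.Agent.Helper27.BI.EmbOn.mono hemb hK1
  have heK : EmbOn I4 D₂.e (jo G S' δ' κ β '' K) :=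
    Pool.Agent.Helper27.BI.EmbOn.mono D₂.embe hsub
  have hcK : EmbOn I4 (D₂.e ∘ jo G S' δ' κ β) K := embOn_comp heK hjK (mapsTo_image _ _)
  have hEq : EqOn (D₂.e ∘ jo G S' δ' κ β) (EE G H δ' κ β) K := by
    intro x hx
    show D₂.e (jo G S' δ' κ β x) = _
    rw [JO.EE_eq hs hS hM (hKs hx), hD₂.e]
  have hmK := JO.mapsTo_sdiff hΘ
  have e1 : imp (D₂.e ∘ jo G S' δ' κ β) K Θ = imp (EE G H δ' κ β) K Θ :=
    Pool.Agent.Helper27.BI.imp_congr hcK.2 hEq hmK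
  have e2 : imp (D₂.e ∘ jo G S' δ' κ β) K Θ =
      imp D₂.e (jo G S' δ' κ β '' K) (imp (jo G S' δ' κ β) K Θ) :=
    (hImp R4 R4 I4 R4 D₂.e (jo G S' δ' κ β '' K) Θ heK.2).2.2.2.2.2.2.2
      (jo G S' δ' κ β) K hjK.2 rfl hmK
  rw [← e1, ← e2]
  exact JO.ci_const hK hcK hΘ

end Pool.Agent.Helper27.S5
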